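import Pool.Agent.Lib.MP_dd9902_an.M2

/-!
# MP_dd9902_an: the dual of a separable Banach space without `ℓ₁` has an equivalent LUR norm

The problem's own definitions, in every universe: the hypothesis is that no closed linear subspace of `X` is
linearly isomorphic (homeomorphically) to `ℓ₁`; a norm is LUR if `2 N(z)² + 2 N(u n)² - N(z + u n)² → 0`
implies `N(u n - z) → 0`.
-/

set_option autoImplicit false

open Filter Topology

namespace Pool.Agent.Results.MP_dd9902_an.LurDual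

universe u

/-- `X` contains an isomorphic copy of `ℓ₁`: some closed linear subspace of `X` is linearly isomorphic to `ℓ₁`
(by a linear homeomorphism). -/
def ContainsEllOne (X : Type u) [NormedAddCommGroup X] [NormedSpace ℝ X] : Prop :=
  ∃ Y : Submodule ℝ X, IsClosed (Y : Set X) ∧ Nonempty (lp (fun _ : ℕ => ℝ) 1 ≃L[ℝ] Y)

/-- `N` is a norm on `Z` equivalent to the given one. -/
def IsEquivalentNorm (Z : Type u) [NormedAddCommGroup Z] [NormedSpace ℝ Z] (N : Seminorm ℝ Z) :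
    Prop :=
  ∃ c C : ℝ, 0 < c ∧ ∀ z : Z, c * ‖z‖ ≤ N z ∧ N z ≤ C * ‖z‖

/-- `N` is locally uniformly rotund. -/
def IsLUR (Z : Type u) [NormedAddCommGroup Z] [NormedSpace ℝ Z] (N : Seminorm ℝ Z) : Prop :=
  ∀ (z : Z) (v : ℕ → Z),
    Tendsto (fun n => 2 * N z ^ 2 + 2 * N (v n) ^ 2 - N (z + v n) ^ 2) atTop (𝓝 0) →
      Tendsto (fun n => N (v n - z)) atTop (𝓝 0)

/-- An operator from `ℓ₁` which is bounded below gives a closed subspace isomorphic to `ℓ₁`. -/
theorem contains_of_bddBelow (X : Type u) [NormedAddCommGroup X] [NormedSpace ℝ X]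
    [CompleteSpace X]
    (h : ∃ T : (lp (fun _ : ℕ => ℝ) 1) →L[ℝ] X, ∃ c : ℝ, 0 < c ∧ ∀ x, c * ‖x‖ ≤ ‖T x‖) :
    ContainsEllOne X := by
  obtain ⟨T, c, hc, hT⟩ := h
  have hanti : AntilipschitzWith (Real.toNNReal c⁻¹) T := by
    apply T.antilipschitz_of_bound
    intro x
    have h1 := hT x
    have h2 : (0 : ℝ) ≤ c⁻¹ := by positivity
    rw [Real.coe_toNNReal _ h2]
    calc ‖x‖ = c⁻¹ * (c * ‖x‖) := by field_simp
      _ ≤ c⁻¹ * ‖T x‖ := mul_le_mul_of_nonneg_left h1 h2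
  have hclosed : IsClosed (Set.range T) := hanti.isClosed_range T.uniformContinuous
  refine ⟨LinearMap.range (T : (lp (fun _ : ℕ => ℝ) 1) →ₗ[ℝ] X), ?_, ⟨T.equivRange hanti.injective hclosed⟩⟩
  have : ((LinearMap.range (T : (lp (fun _ : ℕ => ℝ) 1) →ₗ[ℝ] X) : Submodule ℝ X) : Set X) = Set.range T := by
    ext y; simp
  rw [this]
  exact hclosed

/-- **Theorem.** Let `X` be a separable real Banach space no closed subspace of which is isomorphic to `ℓ₁`. Then
the dual of `X` has an equivalent locally uniformly rotund norm. -/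
theorem result (X : Type u) [NormedAddCommGroup X] [NormedSpace ℝ X] [CompleteSpace X]
    [TopologicalSpace.SeparableSpace X] (hX : ¬ ContainsEllOne X) :
    ∃ N : Seminorm ℝ (X →L[ℝ] ℝ), IsEquivalentNorm (X →L[ℝ] ℝ) N ∧ IsLUR (X →L[ℝ] ℝ) N := by
  have hX' := fun h => hX (contains_of_bddBelow X h)
  obtain ⟨N, ⟨a, b, ha, hb, hab⟩, hadd, hsmul, hlur⟩ :=
    Pool.Agent.DD.renorm (Z := X →L[ℝ] ℝ) (fun ε hε => Pool.Agent.DD.small_ball hX' hε)
  refine ⟨Seminorm.of N hadd (fun t f => by rw [hsmul, Real.norm_eq_abs]), ⟨a, b, ha, hab⟩, ?_⟩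
  intro z v hv
  change Tendsto (fun n => 2 * N z ^ 2 + 2 * N (v n) ^ 2 - N (z + v n) ^ 2) atTop (𝓝 0) at hv
  change Tendsto (fun n => N (v n - z)) atTop (𝓝 0)
  have hnn : ∀ f, 0 ≤ N f := fun f =>
    le_trans (mul_nonneg ha.le (norm_nonneg f)) (hab f).1
  have h1 : Tendsto (fun n => (N (v n) - N z) ^ 2) atTop (𝓝 0) := by
    refine squeeze_zero (fun n => sq_nonneg _) (fun n => ?_) hv
    have h2 := hadd z (v n)
    have h3 := hnn (z + v n)
    nlinarith [hnn z, hnn (v n)]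
  have h2 : Tendsto (fun n => |N (v n) - N z|) atTop (𝓝 0) := by
    have h3 := (Real.continuous_sqrt.tendsto 0).comp h1
    rw [Real.sqrt_zero] at h3
    refine h3.congr (fun n => ?_)
    simp [Real.sqrt_sq_eq_abs]
  have h3 : Tendsto (fun n => N (v n)) atTop (𝓝 (N z)) := by
    rw [tendsto_iff_dist_tendsto_zero]
    simpa [Real.dist_eq] using h2
  have h4 : Tendsto (fun n => N (z + v n) ^ 2) atTop (𝓝 ((2 * N z) ^ 2)) := by
    have h5 : Tendsto (fun n => (2 * N z ^ 2 + 2 * N (v n) ^ 2) -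
        (2 * N z ^ 2 + 2 * N (v n) ^ 2 - N (z + v n) ^ 2)) atTop
        (𝓝 ((2 * N z ^ 2 + 2 * N z ^ 2) - 0)) :=
      ((h3.pow 2).const_mul 2).const_add (2 * N z ^ 2) |>.sub hv
    have h6 : (2 * N z ^ 2 + 2 * N z ^ 2) - 0 = (2 * N z) ^ 2 := by ring
    rw [h6] at h5
    refine h5.congr (fun n => ?_)
    ring
  have h5 : Tendsto (fun n => N (z + v n)) atTop (𝓝 (2 * N z)) := by
    have h6 := (Real.continuous_sqrt.tendsto _).comp h4
    rw [Real.sqrt_sq (by have := hnn z; linarith)] at h6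
    refine h6.congr (fun n => ?_)
    simp [Real.sqrt_sq (hnn _)]
  exact hlur z v h3 h5

end Pool.Agent.Results.MP_dd9902_an.LurDual
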